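import Pool.Agent.H745Z.GameDefs
import Pool.Agent.H745Z.GameA

namespace Pool.Agent.Results.MP_f38362_gt.ADenseFamilies

open Pool.Agent.H745Z.Game

/-- There is a nonempty Tychonoff space on which neither player has a winning strategy in the game
`G₁(𝒟, 𝒟)`, where `𝒟` is the collection of families of open sets with dense union. -/
theorem result : ∃ (X : Type) (_ : TopologicalSpace X), T35Space X ∧ Nonempty X ∧
    ¬ OneWins (DenseFamilies X) (DenseFamilies X) ∧
    ¬ TwoWins (DenseFamilies X) (DenseFamilies X) :=
  Pool.Agent.H745Z.GameA.main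

end Pool.Agent.Results.MP_f38362_gt.ADenseFamilies
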