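import Pool.Agent.H745Z.GameDefs
import Pool.Agent.H745Z.GameB

namespace Pool.Agent.Results.MP_f38362_gt.BOpenPoint

open Pool.Agent.H745Z.Game

/-- There is a nonempty Hausdorff space on which neither player has a winning strategy in the
open-point game: ONE picks nonempty open sets, TWO picks a point in each, and TWO wins iff the set
of picked points is not dense. -/
theorem result : ∃ (X : Type) (_ : TopologicalSpace X), T2Space X ∧ Nonempty X ∧
    ¬ OneWins {O : Set X | IsOpen O ∧ O.Nonempty} {D : Set X | ¬ Dense D} ∧
    ¬ TwoWins {O : Set X | IsOpen O ∧ O.Nonempty} {D : Set X | ¬ Dense D} :=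
  Pool.Agent.H745Z.GameB.main

end Pool.Agent.Results.MP_f38362_gt.BOpenPoint
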